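import Mathlib
import Pool.Agent.H25.SSep

set_option autoImplicit false

namespace Pool.Agent.Results.MP_67c6ba_gt.Real

open TopologicalSpace

/-- `G` is S-separable: for every Hausdorff topological group `H` whose closed subgroups are all
separable, every closed subgroup of `G × H` is separable. -/
def SSeparable (G : Type) [TopologicalSpace G] [Group G] : Prop :=
  ∀ (H : Type) [TopologicalSpace H] [Group H] [IsTopologicalGroup H] [T2Space H],
    (∀ K : Subgroup H, IsClosed (K : Set H) → SeparableSpace K) →
    ∀ L : Subgroup (G × H), IsClosed (L : Set (G × H)) → SeparableSpace L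

/-- The additive group of reals is not S-separable; so there is a separable metrizable group that
is not S-separable. -/
theorem result : ¬ SSeparable (Multiplicative ℝ) ∧
    ∃ (G : Type) (_ : TopologicalSpace G) (_ : Group G), IsTopologicalGroup G ∧
      SeparableSpace G ∧ MetrizableSpace G ∧ ¬ SSeparable G := by
  have h : ¬ SSeparable (Multiplicative ℝ) := fun h => by
    obtain ⟨H, _, _, _, _, h1, L, h2, h3⟩ := Pool.Agent.H25.SSep.main (Multiplicative ℝ)
      (MonoidHom.id _) continuous_id Function.surjective_id
    exact h3 (h H (fun K _ => h1 K) L h2)
  exact ⟨h, Multiplicative ℝ, inferInstance, inferInstance, inferInstance,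
    inferInstanceAs (SeparableSpace ℝ), inferInstanceAs (MetrizableSpace ℝ), h⟩

end Pool.Agent.Results.MP_67c6ba_gt.Real
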